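import Pool.Agent.helper29.JZ.Spec

/-! # Row jz:HIL (MP_3221a1_ag): the passage to the product of two projective lines -/

set_option autoImplicit false

open Finset Module

namespace Pool.Agent.helper45.JZ

open Pool.Agent.helper29.JZ
open Pool.Agent.helper97.FP FP97

theorem jz_HIL : HIL_stmt := by
  classical
  constructor
  · intro Y
    obtain ⟨t, s, hg⟩ := exists_good Y
    refine ⟨Y.image (aff t s), ?_, fun i j => ?_⟩
    · rw [Finset.card_image_of_injOn]
      intro P hP Q hQ h
      exact aff_inj (hg P hP) (hg Q hQ) h
    · have hset : {z | ∃ P ∈ Y, aff t s P = z} =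
          ((Y.image (aff t s) : Finset (ℂ × ℂ)) : Set (ℂ × ℂ)) := by
        ext z; simp
      rw [hilbert_eq_DV hg, hset]
      rfl
  · intro Z
    have hinj : Function.Injective pt := by
      intro x y hxy
      rw [← (pt_good x).2, ← (pt_good y).2, hxy]
    refine ⟨Z.image pt, ?_, fun i j => ?_⟩
    · rw [Finset.card_image_of_injective _ hinj]
    · have hgood : ∀ P ∈ Z.image pt, Good 0 0 P := by
        intro P hP
        rw [Finset.mem_image] at hP
        obtain ⟨z, _, rfl⟩ := hP
        exact (pt_good z).1
      have hset : {z | ∃ P ∈ Z.image pt, aff 0 0 P = z} = (Z : Set (ℂ × ℂ)) := by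
        ext z
        constructor
        · rintro ⟨P, hP, rfl⟩
          rw [Finset.mem_image] at hP
          obtain ⟨w, hw, rfl⟩ := hP
          rw [(pt_good w).2]; exact hw
        · intro hz
          exact ⟨pt z, Finset.mem_image_of_mem _ hz, (pt_good z).2⟩
      rw [hilbert_eq_DV hgood, hset]
      rfl

end Pool.Agent.helper45.JZ
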